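import Mathlib
import Pool.Agent.Helper15.GT.Ring

/-!
# Z2: characters of a product of two finite groups of exponent two and its group ring
-/

set_option linter.unusedSectionVars false

namespace Pool.Agent.Helper79.IV

open Pool.Agent.Helper15.GT

universe u

section Char

theorem exists_char {G : Type*} [CommGroup G] [Finite G] (hG : ∀ g : G, g * g = 1) {a : G} (ha : a ≠ 1) :
    ∃ χ : G →* ℤˣ, χ a ≠ 1 := by
  have h2 : HasEnoughRootsOfUnity ℤ 2 := by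
    constructor
    · exact ⟨-1, IsPrimitiveRoot.neg_one 0 (by norm_num)⟩
    · exact rootsOfUnity.isCyclic ℤ 2
  have h3 : Monoid.exponent G ∣ 2 := Monoid.exponent_dvd_of_forall_pow_eq_one fun g => by rw [pow_two, hG]
  have h4 : HasEnoughRootsOfUnity ℤ (Monoid.exponent G) := HasEnoughRootsOfUnity.of_dvd ℤ h3
  exact CommGroup.exists_apply_ne_one_of_hasEnoughRootsOfUnity G ℤ ha

instance finite_char {G : Type*} [CommGroup G] [Finite G] : Finite (G →* ℤˣ) :=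
  Finite.of_injective (fun χ => (χ : G → ℤˣ)) DFunLike.coe_injective

variable {G₁ G₂ : Type u} [CommGroup G₁] [CommGroup G₂]

/-- The pairs of characters with `χ₁ (a) χ₂ (b) = 1` for all `(a, b)` in `H`. -/
def perp (H : Subgroup (G₁ × G₂)) : Subgroup ((G₁ →* ℤˣ) × (G₂ →* ℤˣ)) where
  carrier := {χ | ∀ h ∈ H, χ.1 h.1 * χ.2 h.2 = 1}
  mul_mem' {χ ψ} hχ hψ h hh := by
    have h1 := hχ h hh
    have h2 := hψ h hh
    rw [Prod.fst_mul, Prod.snd_mul, MonoidHom.mul_apply, MonoidHom.mul_apply, mul_mul_mul_comm, h1, h2, mul_one]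
  one_mem' h _ := mul_one _
  inv_mem' {χ} hχ h hh := by
    have h1 := hχ h hh
    rw [Prod.fst_inv, Prod.snd_inv, MonoidHom.inv_apply, MonoidHom.inv_apply, ← mul_inv, h1, inv_one]

theorem mem_perp (H : Subgroup (G₁ × G₂)) (χ : (G₁ →* ℤˣ) × (G₂ →* ℤˣ)) :
    χ ∈ perp H ↔ ∀ h ∈ H, χ.1 h.1 * χ.2 h.2 = 1 := Iff.rfl

variable [Finite G₁] [Finite G₂] (hG₁ : ∀ g : G₁, g * g = 1) (hG₂ : ∀ g : G₂, g * g = 1) (H : Subgroup (G₁ × G₂))

include hG₁ hG₂ in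
theorem exists_perp {q : G₁ × G₂} (hq : q ∉ H) : ∃ χ ∈ perp H, χ.1 q.1 * χ.2 q.2 = -1 := by
  have h1 : ∀ g : (G₁ × G₂) ⧸ H, g * g = 1 := by
    intro g
    induction g using QuotientGroup.induction_on with
    | H x =>
      rw [← QuotientGroup.mk_mul, show x * x = 1 from Prod.ext (hG₁ x.1) (hG₂ x.2), QuotientGroup.mk_one]
  have h2 : ((q : G₁ × G₂) : (G₁ × G₂) ⧸ H) ≠ 1 := fun h => hq ((QuotientGroup.eq_one_iff q).1 h)
  obtain ⟨χ, hχ⟩ := exists_char h1 h2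
  have h3 : ∀ x : G₁ × G₂, χ (QuotientGroup.mk' H (x.1, 1)) * χ (QuotientGroup.mk' H (1, x.2)) = χ (QuotientGroup.mk' H x) := by
    intro x
    rw [← map_mul, ← map_mul, Prod.mk_mul_mk, one_mul, mul_one]
  refine ⟨((χ.comp (QuotientGroup.mk' H)).comp (MonoidHom.inl G₁ G₂), (χ.comp (QuotientGroup.mk' H)).comp (MonoidHom.inr G₁ G₂)),
    ?_, ?_⟩
  · intro h hh
    refine (h3 h).trans ?_
    rw [show QuotientGroup.mk' H h = 1 from (QuotientGroup.eq_one_iff h).2 hh, map_one]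
  · exact (h3 q).trans ((Int.units_eq_one_or _).resolve_left hχ)

include hG₁ hG₂ in
theorem sum_perp [Fintype (perp H)] (q : G₁ × G₂) [Decidable (q ∈ H)] :
    ∑ χ : perp H, (((χ.1.1 q.1 * χ.1.2 q.2 : ℤˣ) : ℤ) : ℚ) = if q ∈ H then (Fintype.card (perp H) : ℚ) else 0 := by
  split_ifs with h
  · have h1 : ∀ χ : perp H, (((χ.1.1 q.1 * χ.1.2 q.2 : ℤˣ) : ℤ) : ℚ) = 1 := fun χ => by
      rw [χ.2 q h, Units.val_one, Int.cast_one]
    rw [Finset.sum_congr rfl fun χ _ => h1 χ, Finset.sum_const, Finset.card_univ, nsmul_eq_mul, mul_one]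
  · obtain ⟨ψ, hψ, h1⟩ := exists_perp hG₁ hG₂ H h
    have h2 : ∑ χ : perp H, (((χ.1.1 q.1 * χ.1.2 q.2 : ℤˣ) : ℤ) : ℚ) =
        ∑ χ : perp H, ((((⟨ψ, hψ⟩ * χ : perp H).1.1 q.1 * (⟨ψ, hψ⟩ * χ : perp H).1.2 q.2 : ℤˣ) : ℤ) : ℚ) :=
      (Equiv.sum_comp (Equiv.mulLeft (⟨ψ, hψ⟩ : perp H))
        fun χ : perp H => (((χ.1.1 q.1 * χ.1.2 q.2 : ℤˣ) : ℤ) : ℚ)).symm
    have h3 : ∀ χ : perp H, ((((⟨ψ, hψ⟩ * χ : perp H).1.1 q.1 * (⟨ψ, hψ⟩ * χ : perp H).1.2 q.2 : ℤˣ) : ℤ) : ℚ) =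
        - (((χ.1.1 q.1 * χ.1.2 q.2 : ℤˣ) : ℤ) : ℚ) := fun χ => by
      have h4 : (⟨ψ, hψ⟩ * χ : perp H).1.1 q.1 * (⟨ψ, hψ⟩ * χ : perp H).1.2 q.2 =
          (ψ.1 q.1 * ψ.2 q.2) * (χ.1.1 q.1 * χ.1.2 q.2) := mul_mul_mul_comm _ _ _ _
      rw [h4, h1]
      push_cast
      ring
    rw [Finset.sum_congr rfl fun χ _ => h3 χ, Finset.sum_neg_distrib] at h2
    linarith

end Char

section Ring

variable {G : Type*} [Group G] [Finite G]

theorem coeff_mul_eG (Γ : Subgroup G) [Fintype Γ] (a : MonoidAlgebra ℚ G) (g : G) :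
    (a * eG Γ).coeff g = ∑ j : Γ, a.coeff (g * (j : G)⁻¹) := by
  have h1 : eG Γ = ∑ j : Γ, MonoidAlgebra.single (j : G) (1 : ℚ) := by
    unfold eG
    rw [finsum_eq_sum_of_fintype]
    rfl
  rw [h1, Finset.mul_sum, MonoidAlgebra.coeff_sum, Finsupp.finsetSum_apply]
  refine Finset.sum_congr rfl fun j _ => ?_
  have h2 := MonoidAlgebra.coeff_mul_single_apply (R := ℚ) a (1 : ℚ) (j : G) g
  rw [h2, mul_one]

theorem coeff_eG (Γ : Subgroup G) (g : G) [Decidable (g ∈ Γ)] :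
    (eG Γ).coeff g = if g ∈ Γ then 1 else 0 := by
  classical
  have : Fintype Γ := Fintype.ofFinite _
  rw [← one_mul (eG Γ), coeff_mul_eG]
  split_ifs with h
  · rw [Finset.sum_eq_single (⟨g, h⟩ : Γ)]
    · rw [mul_inv_cancel, MonoidAlgebra.one_def, MonoidAlgebra.coeff_single, Finsupp.single_eq_same]
    · intro j _ hj
      rw [MonoidAlgebra.one_def, MonoidAlgebra.coeff_single, Finsupp.single_eq_of_ne]
      intro hx
      exact hj (Subtype.ext (mul_inv_eq_one.1 hx).symm)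
    · intro hx
      exact absurd (Finset.mem_univ _) hx
  · refine Finset.sum_eq_zero fun j _ => ?_
    rw [MonoidAlgebra.one_def, MonoidAlgebra.coeff_single, Finsupp.single_eq_of_ne]
    intro hx
    exact h (by rw [mul_inv_eq_one.1 hx]; exact j.2)

end Ring

section Square

variable {G₁ G₂ : Type u} [CommGroup G₁] [CommGroup G₂]

open Classical in
/-- The element by which `e_Γ` is multiplied. -/
noncomputable def Yc [Fintype G₁] [Fintype G₂] (n : ℕ) (χ : (G₁ →* ℤˣ) × (G₂ →* ℤˣ)) : MonoidAlgebra ℚ (G₁ × G₂) :=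
  ∑ p : G₁ × G₂, MonoidAlgebra.single p
    ((1 / ((n : ℚ) * Nat.card (χ.1.ker.prod χ.2.ker))) * (((χ.1 p.1 * χ.2 p.2 : ℤˣ) : ℤ) : ℚ))

theorem coeff_Yc [Fintype G₁] [Fintype G₂] (n : ℕ) (χ : (G₁ →* ℤˣ) × (G₂ →* ℤˣ)) (q : G₁ × G₂) : (Yc n χ).coeff q =
    (1 / ((n : ℚ) * Nat.card (χ.1.ker.prod χ.2.ker))) * (((χ.1 q.1 * χ.2 q.2 : ℤˣ) : ℤ) : ℚ) := by
  classical
  unfold Yc
  rw [MonoidAlgebra.coeff_sum, Finsupp.finsetSum_apply, Finset.sum_eq_single q]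
  · rw [MonoidAlgebra.coeff_single, Finsupp.single_eq_same]
  · intro p _ hp
    rw [MonoidAlgebra.coeff_single, Finsupp.single_eq_of_ne hp.symm]
  · intro hx
    exact absurd (Finset.mem_univ _) hx

theorem ring_identity (hG₁ : ∀ g : G₁, g * g = 1) (hG₂ : ∀ g : G₂, g * g = 1) (H : Subgroup (G₁ × G₂))
    [Fintype G₁] [Fintype G₂] [Fintype (perp H)] :
    eG H = ∑ χ : perp H, Yc (Fintype.card (perp H)) χ.1 * eG (χ.1.1.ker.prod χ.1.2.ker) * 1 := by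
  classical
  refine MonoidAlgebra.ext (Finsupp.ext fun q => ?_)
  rw [coeff_eG, MonoidAlgebra.coeff_sum, Finsupp.finsetSum_apply]
  have hN : (Fintype.card (perp H) : ℚ) ≠ 0 := by
    have : 0 < Fintype.card (perp H) := Fintype.card_pos
    positivity
  have h1 : ∀ χ : perp H, (Yc (Fintype.card (perp H)) χ.1 * eG (χ.1.1.ker.prod χ.1.2.ker) * 1).coeff q =
      (1 / (Fintype.card (perp H) : ℚ)) * (((χ.1.1 q.1 * χ.1.2 q.2 : ℤˣ) : ℤ) : ℚ) := by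
    intro χ
    have : Fintype (χ.1.1.ker.prod χ.1.2.ker) := Fintype.ofFinite _
    rw [mul_one, coeff_mul_eG]
    have h2 : ∀ j : χ.1.1.ker.prod χ.1.2.ker, (Yc (Fintype.card (perp H)) χ.1).coeff (q * (j : G₁ × G₂)⁻¹) =
        (1 / ((Fintype.card (perp H) : ℚ) * Nat.card (χ.1.1.ker.prod χ.1.2.ker))) *
          (((χ.1.1 q.1 * χ.1.2 q.2 : ℤˣ) : ℤ) : ℚ) := by
      intro j
      have h3 : χ.1.1 (j : G₁ × G₂).1 = 1 := j.2.1
      have h4 : χ.1.2 (j : G₁ × G₂).2 = 1 := j.2.2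
      rw [coeff_Yc, Prod.fst_mul, Prod.snd_mul, Prod.fst_inv, Prod.snd_inv, map_mul, map_mul, map_inv, map_inv, h3, h4,
        inv_one, mul_one, mul_one]
    rw [Finset.sum_congr rfl fun j _ => h2 j, Finset.sum_const, Finset.card_univ, nsmul_eq_mul, ← Nat.card_eq_fintype_card]
    have h6 : (Nat.card (χ.1.1.ker.prod χ.1.2.ker) : ℚ) ≠ 0 := by
      have : 0 < Nat.card (χ.1.1.ker.prod χ.1.2.ker) := Nat.card_pos
      positivity
    field_simp
  rw [Finset.sum_congr rfl fun χ _ => h1 χ, ← Finset.mul_sum, sum_perp hG₁ hG₂]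
  by_cases h : q ∈ H
  · rw [if_pos h, if_pos h]
    field_simp
  · rw [if_neg h, if_neg h, mul_zero]

end Square

end Pool.Agent.Helper79.IV
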