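import Mathlib
import Pool.Agent.Helper28.IV.Gen

/-!
# Z2: fixed fields of a product group in the function field of a product
-/

set_option linter.unusedSectionVars false

namespace Pool.Agent.Helper79.IV

open Function
open scoped TensorProduct

universe u

theorem lift_along {k R S T : Type*} [Field k] [Field R] [Algebra k R] [Field S] [Algebra k S] [Field T] [Algebra k T]
    (f : R →ₐ[k] T) (ψ : S →ₐ[k] T) (h : ∀ x, f x ∈ Set.range ψ) : ∃ f' : R →ₐ[k] S, ∀ x, ψ (f' x) = f x := by
  refine ⟨(AlgEquiv.ofInjective ψ ψ.injective).symm.toAlgHom.comp (f.codRestrict ψ.range h), fun x => ?_⟩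
  have h1 := AlgEquiv.apply_symm_apply (AlgEquiv.ofInjective ψ ψ.injective) (f.codRestrict ψ.range h x)
  exact congrArg Subtype.val h1

section Prod

variable {k A B N : Type u} [Field k] [Field A] [Algebra k A] [Field B] [Algebra k B] [Field N] [Algebra k N]
    (κ : A →ₐ[k] N) (μ : B →ₐ[k] N) {G₁ G₂ : Type*} [Group G₁] [Group G₂]
    (ρA : G₁ →* (A ≃ₐ[k] A)) (ρB : G₂ →* (B ≃ₐ[k] B)) (ρ : G₁ × G₂ →* (N ≃ₐ[k] N))
    (hκ : ∀ a b x, ρ (a, b) (κ x) = κ (ρA a x)) (hμ : ∀ a b y, ρ (a, b) (μ y) = μ (ρB b y))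

include hκ hμ in
theorem rho_P (g : G₁ × G₂) (t : A ⊗[k] B) : ρ g (Algebra.TensorProduct.productMap κ μ t) =
    Algebra.TensorProduct.productMap κ μ (Algebra.TensorProduct.map (ρA g.1).toAlgHom (ρB g.2).toAlgHom t) := by
  induction t using TensorProduct.induction_on with
  | zero => simp only [map_zero]
  | tmul x y =>
    rw [Algebra.TensorProduct.productMap_apply_tmul, map_mul, Algebra.TensorProduct.map_tmul,
      Algebra.TensorProduct.productMap_apply_tmul]
    have h1 := hκ g.1 g.2 x
    have h2 := hμ g.1 g.2 y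
    exact congrArg₂ (· * ·) h1 h2
  | add s t hs ht => simp only [map_add, hs, ht]

variable {A' B' E : Type u} [Field A'] [Algebra k A'] [Field B'] [Algebra k B'] [Field E] [Algebra k E]
    (α : A' →ₐ[k] A) (hα : ∀ x, x ∈ Set.range α ↔ ∀ a, ρA a x = x)
    (β : B' →ₐ[k] B) (hβ : ∀ y, y ∈ Set.range β ↔ ∀ b, ρB b y = y)
    (ψ : E →ₐ[k] N) (hψ : ∀ z, z ∈ Set.range ψ ↔ ∀ g, ρ g z = z)

include hκ hμ hα hβ in
theorem average [CharZero k] [Fintype G₁] [Fintype G₂] (t : A ⊗[k] B) (ht : ∀ g, ρ g (Algebra.TensorProduct.productMap κ μ t) =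
    Algebra.TensorProduct.productMap κ μ t) : ∃ t' : A' ⊗[k] B', Algebra.TensorProduct.productMap κ μ t =
      Algebra.TensorProduct.productMap κ μ (Algebra.TensorProduct.map α β t') := by
  have h1 : ∀ s : A ⊗[k] B, ∃ s' : A' ⊗[k] B', ∑ g : G₁ × G₂, ρ g (Algebra.TensorProduct.productMap κ μ s) =
      Algebra.TensorProduct.productMap κ μ (Algebra.TensorProduct.map α β s') := by
    intro s
    induction s using TensorProduct.induction_on with
    | zero => exact ⟨0, by simp only [map_zero, Finset.sum_const_zero]⟩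
    | tmul x y =>
      have h2 : ∑ a, ρA a x ∈ Set.range α := by
        rw [hα]
        intro a
        rw [map_sum]
        refine Fintype.sum_equiv (Equiv.mulLeft a) _ _ fun b => ?_
        rw [Equiv.coe_mulLeft, map_mul]
        rfl
      have h3 : ∑ b, ρB b y ∈ Set.range β := by
        rw [hβ]
        intro a
        rw [map_sum]
        refine Fintype.sum_equiv (Equiv.mulLeft a) _ _ fun b => ?_
        rw [Equiv.coe_mulLeft, map_mul]
        rfl
      obtain ⟨x', hx'⟩ := h2
      obtain ⟨y', hy'⟩ := h3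
      refine ⟨x' ⊗ₜ y', ?_⟩
      rw [Algebra.TensorProduct.map_tmul, hx', hy', Algebra.TensorProduct.productMap_apply_tmul,
        Algebra.TensorProduct.productMap_apply_tmul, map_sum κ, map_sum μ, Finset.sum_mul_sum, Fintype.sum_prod_type]
      refine Finset.sum_congr rfl fun a _ => Finset.sum_congr rfl fun b _ => ?_
      rw [map_mul, hκ, hμ]
    | add s t hs ht =>
      obtain ⟨s', hs'⟩ := hs
      obtain ⟨t', ht'⟩ := ht
      refine ⟨s' + t', ?_⟩
      simp only [map_add, Finset.sum_add_distrib, hs', ht']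
  obtain ⟨t', ht'⟩ := h1 t
  rw [Finset.sum_congr rfl fun g _ => ht g, Finset.sum_const, Finset.card_univ] at ht'
  have h4 : ((Fintype.card (G₁ × G₂) : ℕ) : k) ≠ 0 := Nat.cast_ne_zero.2 Fintype.card_ne_zero
  refine ⟨((Fintype.card (G₁ × G₂) : ℕ) : k)⁻¹ • t', ?_⟩
  rw [map_smul, map_smul, ← ht', ← Nat.cast_smul_eq_nsmul k, smul_smul, inv_mul_cancel₀ h4, one_smul]

include hκ hμ hα hβ hψ in
theorem prod_fixed [CharZero k] [Finite G₁] [Finite G₂] (inj : Injective (Algebra.TensorProduct.productMap κ μ))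
    (gen : IntermediateField.adjoin k (Set.range κ ∪ Set.range μ) = ⊤) :
    ∃ (κ' : A' →ₐ[k] E) (μ' : B' →ₐ[k] E), (∀ x, ψ (κ' x) = κ (α x)) ∧ (∀ y, ψ (μ' y) = μ (β y)) ∧
      Injective (Algebra.TensorProduct.productMap κ' μ') ∧
      IntermediateField.adjoin k (Set.range κ' ∪ Set.range μ') = ⊤ := by
  classical
  have : Fintype G₁ := Fintype.ofFinite _
  have : Fintype G₂ := Fintype.ofFinite _
  obtain ⟨κ', hκ'⟩ := lift_along (κ.comp α) ψ (fun x => by
    rw [hψ]
    intro g
    have h1 := hκ g.1 g.2 (α x)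
    rw [(hα (α x)).1 ⟨x, rfl⟩ g.1] at h1
    exact h1)
  obtain ⟨μ', hμ'⟩ := lift_along (μ.comp β) ψ (fun x => by
    rw [hψ]
    intro g
    have h1 := hμ g.1 g.2 (β x)
    rw [(hβ (β x)).1 ⟨x, rfl⟩ g.2] at h1
    exact h1)
  have hP : ∀ t : A' ⊗[k] B', ψ (Algebra.TensorProduct.productMap κ' μ' t) =
      Algebra.TensorProduct.productMap κ μ (Algebra.TensorProduct.map α β t) := by
    intro t
    induction t using TensorProduct.induction_on with
    | zero => simp only [map_zero]
    | tmul x y =>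
      rw [Algebra.TensorProduct.productMap_apply_tmul, map_mul, Algebra.TensorProduct.map_tmul,
        Algebra.TensorProduct.productMap_apply_tmul, hκ', hμ']
      rfl
    | add s t hs ht => simp only [map_add, hs, ht]
  refine ⟨κ', μ', hκ', hμ', ?_, ?_⟩
  · have h1 : Injective (Algebra.TensorProduct.map α β) :=
      TensorProduct.map_injective_of_flat_flat α.toLinearMap β.toLinearMap α.injective β.injective
    intro s t hst
    refine h1 (inj ?_)
    rw [← hP, ← hP, hst]
  · rw [eq_top_iff]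
    rintro e -
    obtain ⟨a, b, hb, hab⟩ := Pool.Agent.Helper28.IV.quot_of_gen κ μ gen (ψ e)
    have hPb : Algebra.TensorProduct.productMap κ μ b ≠ 0 := fun h => hb (inj (h.trans (map_zero _).symm))
    have hfix : ∀ g, ρ g (ψ e) = ψ e := (hψ _).1 ⟨e, rfl⟩
    -- the norm of the denominator
    let nb : A ⊗[k] B := ∏ g : G₁ × G₂, Algebra.TensorProduct.map (ρA g.1).toAlgHom (ρB g.2).toAlgHom b
    let ra : A ⊗[k] B := a * ∏ g ∈ Finset.univ.erase (1 : G₁ × G₂),
      Algebra.TensorProduct.map (ρA g.1).toAlgHom (ρB g.2).toAlgHom b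
    have h1 : Algebra.TensorProduct.productMap κ μ nb = ∏ g : G₁ × G₂, ρ g (Algebra.TensorProduct.productMap κ μ b) := by
      rw [map_prod]
      exact Finset.prod_congr rfl fun g _ => (rho_P κ μ ρA ρB ρ hκ hμ g b).symm
    have h2 : ψ e * Algebra.TensorProduct.productMap κ μ nb = Algebra.TensorProduct.productMap κ μ ra := by
      rw [h1, ← Finset.mul_prod_erase Finset.univ _ (Finset.mem_univ (1 : G₁ × G₂)), map_mul, map_prod, ← mul_assoc, map_one,
        AlgEquiv.one_apply, hab]
      congr 1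
      exact Finset.prod_congr rfl fun g _ => rho_P κ μ ρA ρB ρ hκ hμ g b
    have h3 : ∀ g, ρ g (Algebra.TensorProduct.productMap κ μ nb) = Algebra.TensorProduct.productMap κ μ nb := by
      intro g
      rw [h1, map_prod]
      refine Fintype.prod_equiv (Equiv.mulLeft g) _ _ fun h => ?_
      rw [Equiv.coe_mulLeft, map_mul]
      rfl
    have h4 : ∀ g, ρ g (Algebra.TensorProduct.productMap κ μ ra) = Algebra.TensorProduct.productMap κ μ ra := by
      intro g
      rw [← h2, map_mul, hfix, h3]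
    have h5 : Algebra.TensorProduct.productMap κ μ nb ≠ 0 := by
      rw [h1]
      refine Finset.prod_ne_zero_iff.2 fun g _ => ?_
      rw [Ne, EmbeddingLike.map_eq_zero_iff]
      exact hPb
    obtain ⟨n', hn'⟩ := average κ μ ρA ρB ρ hκ hμ α hα β hβ nb h3
    obtain ⟨r', hr'⟩ := average κ μ ρA ρB ρ hκ hμ α hα β hβ ra h4
    rw [hn', hr', ← hP, ← hP, ← map_mul] at h2
    have h6 := ψ.injective h2
    have h7 : Algebra.TensorProduct.productMap κ' μ' n' ≠ 0 := by
      intro h
      rw [hn', ← hP, h, map_zero] at h5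
      exact h5 rfl
    have h8 : e = Algebra.TensorProduct.productMap κ' μ' r' / Algebra.TensorProduct.productMap κ' μ' n' :=
      (eq_div_iff h7).2 h6
    have h9 : ∀ t : A' ⊗[k] B', Algebra.TensorProduct.productMap κ' μ' t ∈
        IntermediateField.adjoin k (Set.range κ' ∪ Set.range μ') := by
      intro t
      induction t using TensorProduct.induction_on with
      | zero => rw [map_zero]; exact zero_mem _
      | tmul x y =>
        rw [Algebra.TensorProduct.productMap_apply_tmul]
        exact mul_mem (IntermediateField.subset_adjoin _ _ (Or.inl ⟨x, rfl⟩))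
          (IntermediateField.subset_adjoin _ _ (Or.inr ⟨y, rfl⟩))
      | add s t hs ht => rw [map_add]; exact add_mem hs ht
    rw [h8]
    exact div_mem (h9 _) (h9 _)

end Prod

end Pool.Agent.Helper79.IV
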