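import Mathlib
import Pool.Agent.Helper79.IV.Char

/-!
# Z2: the wreath product of a finite group of exponent two with the exchange
-/

set_option linter.unusedSectionVars false

namespace Pool.Agent.Helper79.IV

open Pool.Agent.Helper15.GT

universe u

/-- The elements `(l, r) σ ^ s` of the wreath product of `G` with the group generated by the exchange `σ`. -/
@[ext] structure Wr (G : Type u) where
  /-- the left component -/
  l : G
  /-- the right component -/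
  r : G
  /-- whether the exchange occurs -/
  s : Bool

variable {G : Type u} [CommGroup G]

instance : Mul (Wr G) := ⟨fun x y => match x.s with
  | false => ⟨x.l * y.l, x.r * y.r, y.s⟩
  | true => ⟨x.l * y.r, x.r * y.l, !y.s⟩⟩

instance : One (Wr G) := ⟨⟨1, 1, false⟩⟩

instance : Inv (Wr G) := ⟨fun x => match x.s with
  | false => ⟨x.l⁻¹, x.r⁻¹, false⟩
  | true => ⟨x.r⁻¹, x.l⁻¹, true⟩⟩

theorem mk_false_mul (a b : G) (y : Wr G) : (⟨a, b, false⟩ : Wr G) * y = ⟨a * y.l, b * y.r, y.s⟩ := rfl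

theorem mk_true_mul (a b : G) (y : Wr G) : (⟨a, b, true⟩ : Wr G) * y = ⟨a * y.r, b * y.l, !y.s⟩ := rfl

theorem one_eq : (1 : Wr G) = ⟨1, 1, false⟩ := rfl

instance : Group (Wr G) := Group.ofLeftAxioms
  (by
    rintro ⟨a, b, s⟩ ⟨c, d, t⟩ ⟨e, f, w⟩
    cases s <;> cases t <;>
      simp only [mk_false_mul, mk_true_mul, mul_assoc, Bool.not_not, Bool.not_true, Bool.not_false])
  (by
    rintro ⟨a, b, s⟩
    rw [one_eq, mk_false_mul, one_mul, one_mul])
  (by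
    rintro ⟨a, b, s⟩
    cases s
    · change (⟨a⁻¹, b⁻¹, false⟩ : Wr G) * ⟨a, b, false⟩ = 1
      rw [mk_false_mul, inv_mul_cancel, inv_mul_cancel]
      rfl
    · change (⟨b⁻¹, a⁻¹, true⟩ : Wr G) * ⟨a, b, true⟩ = 1
      rw [mk_true_mul, inv_mul_cancel, inv_mul_cancel]
      rfl)

theorem inv_false (a b : G) : (⟨a, b, false⟩ : Wr G)⁻¹ = ⟨a⁻¹, b⁻¹, false⟩ := rfl

theorem inv_true (a b : G) : (⟨a, b, true⟩ : Wr G)⁻¹ = ⟨b⁻¹, a⁻¹, true⟩ := rfl

instance finite_Wr [Finite G] : Finite (Wr G) := by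
  refine Finite.of_injective (fun x : Wr G => (x.l, x.r, x.s)) fun x y h => ?_
  rw [Prod.mk.injEq, Prod.mk.injEq] at h
  exact Wr.ext h.1 h.2.1 h.2.2

/-- The character `(l, r) σ ^ s ↦ χ (l r)`. -/
def Xc (χ : G →* ℤˣ) : Wr G →* ℤˣ where
  toFun x := χ (x.l * x.r)
  map_one' := by rw [one_eq, mul_one, map_one]
  map_mul' := by
    rintro ⟨a, b, s⟩ ⟨c, d, t⟩
    cases s
    · rw [mk_false_mul, ← map_mul, mul_mul_mul_comm]
    · rw [mk_true_mul, ← map_mul, mul_mul_mul_comm, mul_comm d c]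

theorem Xc_apply (χ : G →* ℤˣ) (x : Wr G) : Xc χ x = χ (x.l * x.r) := rfl

/-- The elements with both components in the kernel of `χ`. -/
def Gc (χ : G →* ℤˣ) : Subgroup (Wr G) where
  carrier := {x | χ x.l = 1 ∧ χ x.r = 1}
  mul_mem' := by
    rintro ⟨a, b, s⟩ ⟨c, d, t⟩ ⟨h1, h2⟩ ⟨h3, h4⟩
    cases s
    · rw [mk_false_mul]
      exact ⟨by rw [map_mul, h1, h3, mul_one], by rw [map_mul, h2, h4, mul_one]⟩
    · rw [mk_true_mul]
      exact ⟨by rw [map_mul, h1, h4, mul_one], by rw [map_mul, h2, h3, mul_one]⟩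
  one_mem' := ⟨map_one χ, map_one χ⟩
  inv_mem' := by
    rintro ⟨a, b, s⟩ ⟨h1, h2⟩
    cases s
    · rw [inv_false]
      exact ⟨by rw [map_inv, h1, inv_one], by rw [map_inv, h2, inv_one]⟩
    · rw [inv_true]
      exact ⟨by rw [map_inv, h2, inv_one], by rw [map_inv, h1, inv_one]⟩

theorem mem_Gc (χ : G →* ℤˣ) (x : Wr G) : x ∈ Gc χ ↔ χ x.l = 1 ∧ χ x.r = 1 := Iff.rfl

/-- The elements with equal components. -/
def Wd (G : Type u) [CommGroup G] : Subgroup (Wr G) where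
  carrier := {x | x.l = x.r}
  mul_mem' := by
    rintro ⟨a, b, s⟩ ⟨c, d, t⟩ h1 h2
    have h3 : a = b := h1
    have h4 : c = d := h2
    subst h3 h4
    cases s
    · rw [mk_false_mul]
      rfl
    · rw [mk_true_mul]
      rfl
  one_mem' := rfl
  inv_mem' := by
    rintro ⟨a, b, s⟩ h1
    have h3 : a = b := h1
    subst h3
    cases s
    · rw [inv_false]
      rfl
    · rw [inv_true]
      rfl

theorem mem_Wd (x : Wr G) : x ∈ Wd G ↔ x.l = x.r := Iff.rfl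

theorem sum_char [Finite G] [Fintype (G →* ℤˣ)] (hG : ∀ g : G, g * g = 1) (g : G) [Decidable (g = 1)] :
    ∑ χ : G →* ℤˣ, (((χ g : ℤˣ) : ℤ) : ℚ) = if g = 1 then (Fintype.card (G →* ℤˣ) : ℚ) else 0 := by
  split_ifs with h
  · subst h
    have h1 : ∀ χ : G →* ℤˣ, (((χ 1 : ℤˣ) : ℤ) : ℚ) = 1 := fun χ => by rw [map_one, Units.val_one, Int.cast_one]
    rw [Finset.sum_congr rfl fun χ _ => h1 χ, Finset.sum_const, Finset.card_univ, nsmul_eq_mul, mul_one]
  · obtain ⟨ψ, hψ⟩ := exists_char hG h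
    have h1 : ψ g = -1 := (Int.units_eq_one_or (ψ g)).resolve_left hψ
    have h2 : ∑ χ : G →* ℤˣ, (((χ g : ℤˣ) : ℤ) : ℚ) = ∑ χ : G →* ℤˣ, ((((ψ * χ) g : ℤˣ) : ℤ) : ℚ) :=
      (Equiv.sum_comp (Equiv.mulLeft ψ) fun χ : G →* ℤˣ => (((χ g : ℤˣ) : ℤ) : ℚ)).symm
    have h3 : ∀ χ : G →* ℤˣ, ((((ψ * χ) g : ℤˣ) : ℤ) : ℚ) = - (((χ g : ℤˣ) : ℤ) : ℚ) := fun χ => by
      rw [MonoidHom.mul_apply, h1]
      push_cast
      ring
    rw [Finset.sum_congr rfl fun χ _ => h3 χ, Finset.sum_neg_distrib] at h2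
    linarith

open Classical in
/-- The element by which `e_Γ` is multiplied. -/
noncomputable def Yw [Fintype (Wr G)] (n : ℕ) (χ : G →* ℤˣ) : MonoidAlgebra ℚ (Wr G) :=
  ∑ p : Wr G, MonoidAlgebra.single p ((1 / ((n : ℚ) * Nat.card (Gc χ))) * (((Xc χ p : ℤˣ) : ℤ) : ℚ))

theorem coeff_Yw [Fintype (Wr G)] (n : ℕ) (χ : G →* ℤˣ) (q : Wr G) : (Yw n χ).coeff q =
    (1 / ((n : ℚ) * Nat.card (Gc χ))) * (((Xc χ q : ℤˣ) : ℤ) : ℚ) := by
  classical
  unfold Yw
  rw [MonoidAlgebra.coeff_sum, Finsupp.finsetSum_apply, Finset.sum_eq_single q]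
  · rw [MonoidAlgebra.coeff_single, Finsupp.single_eq_same]
  · intro p _ hp
    rw [MonoidAlgebra.coeff_single, Finsupp.single_eq_of_ne hp.symm]
  · intro hx
    exact absurd (Finset.mem_univ _) hx

theorem ring_identity_wr [Finite G] (hG : ∀ g : G, g * g = 1) [Fintype (Wr G)] [Fintype (G →* ℤˣ)] :
    eG (Wd G) = ∑ χ : G →* ℤˣ, Yw (Fintype.card (G →* ℤˣ)) χ * eG (Gc χ) * 1 := by
  classical
  refine MonoidAlgebra.ext (Finsupp.ext fun q => ?_)
  rw [coeff_eG, MonoidAlgebra.coeff_sum, Finsupp.finsetSum_apply]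
  have hN : (Fintype.card (G →* ℤˣ) : ℚ) ≠ 0 := by
    have : 0 < Fintype.card (G →* ℤˣ) := Fintype.card_pos
    positivity
  have h1 : ∀ χ : G →* ℤˣ, (Yw (Fintype.card (G →* ℤˣ)) χ * eG (Gc χ) * 1).coeff q =
      (1 / (Fintype.card (G →* ℤˣ) : ℚ)) * (((χ (q.l * q.r) : ℤˣ) : ℤ) : ℚ) := by
    intro χ
    have : Fintype (Gc χ) := Fintype.ofFinite _
    rw [mul_one, coeff_mul_eG]
    have h2 : ∀ j : Gc χ, (Yw (Fintype.card (G →* ℤˣ)) χ).coeff (q * (j : Wr G)⁻¹) =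
        (1 / ((Fintype.card (G →* ℤˣ) : ℚ) * Nat.card (Gc χ))) * (((χ (q.l * q.r) : ℤˣ) : ℤ) : ℚ) := by
      intro j
      have h3 : Xc χ (j : Wr G) = 1 := by
        rw [Xc_apply, map_mul, j.2.1, j.2.2, mul_one]
      rw [coeff_Yw, map_mul, map_inv, h3, inv_one, mul_one, Xc_apply]
    rw [Finset.sum_congr rfl fun j _ => h2 j, Finset.sum_const, Finset.card_univ, nsmul_eq_mul, ← Nat.card_eq_fintype_card]
    have h6 : (Nat.card (Gc χ) : ℚ) ≠ 0 := by
      have : 0 < Nat.card (Gc χ) := Nat.card_pos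
      positivity
    field_simp
  rw [Finset.sum_congr rfl fun χ _ => h1 χ, ← Finset.mul_sum, sum_char hG]
  have h7 : q.l * q.r = 1 ↔ q.l = q.r := by
    constructor
    · intro h
      have h8 := congrArg (· * q.r) h
      simpa only [mul_assoc, hG, mul_one, one_mul] using h8
    · intro h
      rw [h, hG]
  by_cases h : q.l = q.r
  · rw [if_pos ((mem_Wd q).2 h), if_pos (h7.2 h)]
    field_simp
  · rw [if_neg fun h' => h ((mem_Wd q).1 h'), if_neg fun h' => h (h7.1 h'), mul_zero]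

end Pool.Agent.Helper79.IV
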