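import Mathlib
import Pool.Agent.Helper28.IV.Cls
import Pool.Agent.Helper94.VQ.Act
import Pool.Agent.Helper79.IV.Wr
import Pool.Agent.Helper79.IV.Prod

/-!
# Z2: quotients of the square of a curve by a diagonal group of exponent two and the exchange

Let the finite group `G` of exponent two act on the curve `C` with function field `A`, let `N` be the function field of
`C × C` and let `F` be the fixed field of the diagonal of `G × G` and the exchange `τ`. Then `F` and the sum over the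
characters `χ` of `G` of `g (g - 1) / 2`, where `g` is the genus of `C / ker χ`, are in the class. (If `C / G` is rational
then `F` is the function field of a covering of the plane with the group `G`, branched along tangents of a conic, and the
number is its geometric genus.)
-/

set_option linter.unusedSectionVars false

namespace Pool.Agent.Helper79.IV

open VC Function Pool.Agent.Helper28.IV Pool.Agent.Helper15.GT
open scoped TensorProduct

universe u

section Hom

/-- Two homomorphisms which agree on `A ⊗ 1` and on `1 ⊗ A` are equal. -/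
theorem hom_ext_gen {k A N : Type u} [Field k] [Field A] [Algebra k A] [Field N] [Algebra k N]
    (κ μ : A →ₐ[k] N) (gen : IntermediateField.adjoin k (Set.range κ ∪ Set.range μ) = ⊤)
    (f g : N →ₐ[k] N) (h1 : ∀ x, f (κ x) = g (κ x)) (h2 : ∀ x, f (μ x) = g (μ x)) (z : N) : f z = g z := by
  have hz : z ∈ IntermediateField.adjoin k (Set.range κ ∪ Set.range μ) := by rw [gen]; trivial
  induction hz using IntermediateField.adjoin_induction with
  | mem x hx =>
    rcases hx with ⟨y, rfl⟩ | ⟨y, rfl⟩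
    · exact h1 y
    · exact h2 y
  | algebraMap x => rw [AlgHom.commutes, AlgHom.commutes]
  | add x y _ _ hx hy => rw [map_add, map_add, hx, hy]
  | inv x _ hx => rw [map_inv₀, map_inv₀, hx]
  | mul x y _ _ hx hy => rw [map_mul, map_mul, hx, hy]

variable {k A N : Type u} [Field k] [Field A] [Algebra k A] [Field N] [Algebra k N] {G : Type u} [CommGroup G]
    (κ μ : A →ₐ[k] N) (gen : IntermediateField.adjoin k (Set.range κ ∪ Set.range μ) = ⊤)
    (ρA : G →* (A ≃ₐ[k] A)) (ρ : G × G →* (N ≃ₐ[k] N))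
    (hκ : ∀ a b x, ρ (a, b) (κ x) = κ (ρA a x)) (hμ : ∀ a b y, ρ (a, b) (μ y) = μ (ρA b y))
    (τ : N ≃ₐ[k] N) (hτ : ∀ z, τ (κ z) = μ z ∧ τ (μ z) = κ z)

include gen hτ in
theorem tau_tau (z : N) : τ (τ z) = z :=
  hom_ext_gen κ μ gen (τ.toAlgHom.comp τ.toAlgHom) (AlgHom.id k N)
    (fun x => (congrArg τ (hτ x).1).trans (hτ x).2) (fun x => (congrArg τ (hτ x).2).trans (hτ x).1) z

include gen hκ hμ hτ in
theorem tau_rho (a b : G) (z : N) : τ (ρ (a, b) z) = ρ (b, a) (τ z) := by
  refine hom_ext_gen κ μ gen (τ.toAlgHom.comp (ρ (a, b)).toAlgHom) ((ρ (b, a)).toAlgHom.comp τ.toAlgHom)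
    (fun x => ?_) (fun x => ?_) z
  · change τ (ρ (a, b) (κ x)) = ρ (b, a) (τ (κ x))
    rw [hκ, (hτ _).1, (hτ _).1, hμ]
  · change τ (ρ (a, b) (μ x)) = ρ (b, a) (τ (μ x))
    rw [hμ, (hτ _).2, (hτ _).2, hκ]

/-- The action of the wreath product. -/
def rhoW (h1 : ∀ z, τ (τ z) = z) (h2 : ∀ a b z, τ (ρ (a, b) z) = ρ (b, a) (τ z)) : Wr G →* (N ≃ₐ[k] N) where
  toFun x := match x.s with
    | false => ρ (x.l, x.r)
    | true => ρ (x.l, x.r) * τ
  map_one' := by
    rw [one_eq]
    exact map_one ρ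
  map_mul' := by
    rintro ⟨a, b, s⟩ ⟨c, d, t⟩
    cases s <;> cases t
    · rw [mk_false_mul]
      change ρ (a * c, b * d) = ρ (a, b) * ρ (c, d)
      rw [← map_mul, Prod.mk_mul_mk]
    · rw [mk_false_mul]
      change ρ (a * c, b * d) * τ = ρ (a, b) * (ρ (c, d) * τ)
      rw [← mul_assoc, ← map_mul, Prod.mk_mul_mk]
    · rw [mk_true_mul]
      change ρ (a * d, b * c) * τ = ρ (a, b) * τ * ρ (c, d)
      refine AlgEquiv.ext fun z => ?_
      change ρ (a * d, b * c) (τ z) = ρ (a, b) (τ (ρ (c, d) z))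
      rw [h2]
      exact (congrArg (fun f : N ≃ₐ[k] N => f (τ z)) (map_mul ρ (a, b) (d, c)))
    · rw [mk_true_mul]
      change ρ (a * d, b * c) = ρ (a, b) * τ * (ρ (c, d) * τ)
      refine AlgEquiv.ext fun z => ?_
      change ρ (a * d, b * c) z = ρ (a, b) (τ (ρ (c, d) (τ z)))
      rw [h2, h1]
      exact (congrArg (fun f : N ≃ₐ[k] N => f z) (map_mul ρ (a, b) (d, c)))

end Hom

theorem cls_tangents {k : Type u} [Field k] [IsAlgClosed k] [CharZero k] {G : Type u} [CommGroup G] [Finite G]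
    (hG : ∀ g : G, g * g = 1)
    {F N A : Type u} [Field F] [Algebra k F] [Field N] [Algebra k N] [Field A] [Algebra k A]
    (hA : IsFunctionField k A) (κ μ : A →ₐ[k] N) (inj : Injective (Algebra.TensorProduct.productMap κ μ))
    (gen : IntermediateField.adjoin k (Set.range κ ∪ Set.range μ) = ⊤)
    (ρA : G →* (A ≃ₐ[k] A)) (ρ : G × G →* (N ≃ₐ[k] N))
    (hκ : ∀ a b x, ρ (a, b) (κ x) = κ (ρA a x)) (hμ : ∀ a b y, ρ (a, b) (μ y) = μ (ρA b y))
    (τ : N ≃ₐ[k] N) (hτ : ∀ z, τ (κ z) = μ z ∧ τ (μ z) = κ z)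
    (gA : (G →* ℤˣ) → ℕ) (hgA : ∀ χ, IsGenus k (IntermediateField.fixedField (χ.ker.map ρA)) (gA χ))
    (φ : F →ₐ[k] N) (hφ : ∀ z : N, z ∈ Set.range φ ↔ (∀ g, ρ (g, g) z = z) ∧ τ z = z) :
    Cls k F (∑ᶠ χ : G →* ℤˣ, (gA χ).choose 2) := by
  classical
  have : Fintype G := Fintype.ofFinite _
  have : Fintype (Wr G) := Fintype.ofFinite _
  have : Fintype (G →* ℤˣ) := Fintype.ofFinite _
  have h1 := tau_tau κ μ gen τ hτ
  have h2 := tau_rho κ μ gen ρA ρ hκ hμ τ hτ
  have e : Fin (Fintype.card (G →* ℤˣ)) ≃ (G →* ℤˣ) := (Fintype.equivFin (G →* ℤˣ)).symm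
  rw [finsum_eq_sum_of_fintype, ← Equiv.sum_comp e]
  -- the action
  have hf : ∀ a b (z : N), rhoW ρ τ h1 h2 ⟨a, b, false⟩ z = ρ (a, b) z := fun a b z => rfl
  have ht : ∀ a b (z : N), rhoW ρ τ h1 h2 ⟨a, b, true⟩ z = ρ (a, b) (τ z) := fun a b z => rfl
  have memE : ∀ (Γ : Subgroup (Wr G)) (z : N), z ∈ IntermediateField.fixedField (Γ.map (rhoW ρ τ h1 h2)) ↔
      ∀ g ∈ Γ, rhoW ρ τ h1 h2 g z = z := by
    intro Γ z
    rw [IntermediateField.mem_fixedField_iff]
    constructor
    · exact fun h g hg => h (rhoW ρ τ h1 h2 g) (Subgroup.mem_map_of_mem _ hg)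
    · rintro h _ ⟨g, hg, rfl⟩
      exact h g hg
  have memN : ∀ (Γ : Subgroup (G × G)) (z : N), z ∈ IntermediateField.fixedField (Γ.map ρ) ↔ ∀ g ∈ Γ, ρ g z = z := by
    intro Γ z
    rw [IntermediateField.mem_fixedField_iff]
    constructor
    · exact fun h g hg => h (ρ g) (Subgroup.mem_map_of_mem ρ hg)
    · rintro h _ ⟨g, hg, rfl⟩
      exact h g hg
  have memA : ∀ (Γ : Subgroup G) (z : A), z ∈ IntermediateField.fixedField (Γ.map ρA) ↔ ∀ g ∈ Γ, ρA g z = z := by
    intro Γ z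
    rw [IntermediateField.mem_fixedField_iff]
    constructor
    · exact fun h g hg => h (ρA g) (Subgroup.mem_map_of_mem ρA hg)
    · rintro h _ ⟨g, hg, rfl⟩
      exact h g hg
  -- the fixed field of `Gc χ`
  have memG : ∀ (χ : G →* ℤˣ) (z : N), (∀ g ∈ Gc χ, rhoW ρ τ h1 h2 g z = z) ↔
      (∀ g ∈ χ.ker.prod χ.ker, ρ g z = z) ∧ τ z = z := by
    intro χ z
    constructor
    · intro h
      refine ⟨fun g hg => ?_, ?_⟩
      · exact h ⟨g.1, g.2, false⟩ ⟨hg.1, hg.2⟩
      · have h3 := h ⟨1, 1, true⟩ ⟨map_one χ, map_one χ⟩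
        rw [ht, show ((1 : G), (1 : G)) = 1 from rfl, map_one, AlgEquiv.one_apply] at h3
        exact h3
    · rintro ⟨h3, h4⟩ ⟨a, b, s⟩ hg
      cases s
      · rw [hf]
        exact h3 (a, b) ⟨hg.1, hg.2⟩
      · rw [ht, h4]
        exact h3 (a, b) ⟨hg.1, hg.2⟩
  refine Cls.dec F N (Wr G) (rhoW ρ τ h1 h2) (Wd G) φ ?_ (Fintype.card (G →* ℤˣ)) (fun i => Gc (e i)) (fun _ => 1)
    (fun i => Yw (Fintype.card (G →* ℤˣ)) (e i)) ?_
    (fun i => IntermediateField.fixedField ((Gc (e i)).map (rhoW ρ τ h1 h2)))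
    (fun i => (IntermediateField.fixedField ((Gc (e i)).map (rhoW ρ τ h1 h2))).val) ?_
    (fun i => (gA (e i)).choose 2) ?_
  · intro z
    rw [hφ]
    constructor
    · rintro ⟨h3, h4⟩ ⟨a, b, s⟩ hg
      have h5 : a = b := hg
      subst h5
      cases s
      · rw [hf]
        exact h3 a
      · rw [ht, h4]
        exact h3 a
    · intro h
      refine ⟨fun g => h ⟨g, g, false⟩ rfl, ?_⟩
      have h3 := h ⟨1, 1, true⟩ rfl
      rw [ht, show ((1 : G), (1 : G)) = 1 from rfl, map_one, AlgEquiv.one_apply] at h3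
      exact h3
  · rw [ring_identity_wr hG, ← Equiv.sum_comp e]
  · intro i z
    rw [← memE]
    exact ⟨fun ⟨x, hx⟩ => hx ▸ x.2, fun h => ⟨⟨z, h⟩, rfl⟩⟩
  · intro i
    have : Finite ((e i).ker.map ρA) := Finite.Set.finite_image ((e i).ker : Set G) ρA
    obtain ⟨κ', μ', hκ', hμ', inj', gen'⟩ := prod_fixed κ μ (ρA.comp (e i).ker.subtype) (ρA.comp (e i).ker.subtype)
      (ρ.comp ((e i).ker.subtype.prodMap (e i).ker.subtype)) (fun a b x => hκ a b x) (fun a b y => hμ a b y)
      (IntermediateField.fixedField ((e i).ker.map ρA)).val (fun x => by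
        constructor
        · rintro ⟨y, rfl⟩ a
          exact (memA _ _).1 y.2 a a.2
        · intro h
          exact ⟨⟨x, (memA _ _).2 fun g hg => h ⟨g, hg⟩⟩, rfl⟩)
      (IntermediateField.fixedField ((e i).ker.map ρA)).val (fun x => by
        constructor
        · rintro ⟨y, rfl⟩ a
          exact (memA _ _).1 y.2 a a.2
        · intro h
          exact ⟨⟨x, (memA _ _).2 fun g hg => h ⟨g, hg⟩⟩, rfl⟩)
      (IntermediateField.fixedField (((e i).ker.prod (e i).ker).map ρ)).val (fun x => by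
        constructor
        · rintro ⟨y, rfl⟩ g
          exact (memN _ _).1 y.2 (g.1, g.2) ⟨g.1.2, g.2.2⟩
        · intro h
          exact ⟨⟨x, (memN _ _).2 fun g hg => h (⟨g.1, hg.1⟩, ⟨g.2, hg.2⟩)⟩, rfl⟩)
      inj gen
    -- the exchange on the product of the quotients
    let N' := IntermediateField.fixedField (((e i).ker.prod (e i).ker).map ρ)
    have h3 : ∀ z : N', τ z ∈ N' := by
      intro z
      rw [memN]
      intro g hg
      have h4 := h2 g.2 g.1 z
      rw [← h4, (memN _ _).1 z.2 (g.2, g.1) ⟨hg.2, hg.1⟩]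
    let t : N' →ₐ[k] N' := (τ.toAlgHom.comp N'.val).codRestrict N'.toSubalgebra h3
    have ht' : ∀ z, ((t z : N') : N) = τ z := fun z => rfl
    have h5 : ∀ z, t (t z) = z := fun z => Subtype.ext (by rw [ht', ht', h1])
    let τ' : N' ≃ₐ[k] N' := AlgEquiv.ofAlgHom t t (AlgHom.ext h5) (AlgHom.ext h5)
    have h6 : ∀ z, ((τ' z : N') : N) = τ z := fun z => rfl
    have h7 : IntermediateField.fixedField ((Gc (e i)).map (rhoW ρ τ h1 h2)) ≤ N' := by
      intro z hz
      rw [memE, memG] at hz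
      exact (memN _ _).2 hz.1
    refine Cls.sym _ N' _ (VQ.isFunctionField_fixed _ hA) _ (hgA _) κ' μ' inj' gen' τ' (fun z => ⟨?_, ?_⟩)
      (IntermediateField.inclusion h7) ?_
    · refine Subtype.ext ?_
      rw [h6]
      have h8 : ((κ' z : N') : N) = κ z := hκ' z
      have h9 : ((μ' z : N') : N) = μ z := hμ' z
      rw [h8, h9, (hτ _).1]
    · refine Subtype.ext ?_
      rw [h6]
      have h8 : ((κ' z : N') : N) = κ z := hκ' z
      have h9 : ((μ' z : N') : N) = μ z := hμ' z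
      rw [h8, h9, (hτ _).2]
    · intro z
      have h8 : z ∈ Set.range (IntermediateField.inclusion h7) ↔
          (z : N) ∈ IntermediateField.fixedField ((Gc (e i)).map (rhoW ρ τ h1 h2)) := by
        constructor
        · rintro ⟨x, rfl⟩
          exact x.2
        · intro h
          exact ⟨⟨z, h⟩, rfl⟩
      rw [h8, memE, memG]
      constructor
      · rintro ⟨_, h9⟩
        exact Subtype.ext h9
      · intro h9
        exact ⟨(memN _ _).1 z.2, congrArg Subtype.val h9⟩

end Pool.Agent.Helper79.IV
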