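import Mathlib
import Pool.Agent.Helper28.IV.Cls
import Pool.Agent.Helper94.VQ.Act
import Pool.Agent.Helper79.IV.Char
import Pool.Agent.Helper79.IV.Prod

/-!
# Z2: quotients of a product of two curves by a group of exponent two

Let the finite groups `G₁`, `G₂` of exponent two act on the curves with function fields `A`, `B`, let `N` be the function
field of the product, `H` a subgroup of `G₁ × G₂` and `F` the fixed field of `H`. Then `F` and the sum of the products
`g(C₁/ker χ₁) g(C₂/ker χ₂)` over the pairs of characters with `χ₁ χ₂ = 1` on `H` are in the class.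
(If the `C_i / G_i` are rational then this number is the geometric genus of `F`.)
-/

set_option linter.unusedSectionVars false

namespace Pool.Agent.Helper79.IV

open VC Function Pool.Agent.Helper28.IV Pool.Agent.Helper15.GT
open scoped TensorProduct

universe u

theorem cls_exp_two {k : Type u} [Field k] [IsAlgClosed k] [CharZero k] {G₁ G₂ : Type u} [CommGroup G₁] [CommGroup G₂]
    [Finite G₁] [Finite G₂] (hG₁ : ∀ g : G₁, g * g = 1) (hG₂ : ∀ g : G₂, g * g = 1)
    {F N A B : Type u} [Field F] [Algebra k F] [Field N] [Algebra k N] [Field A] [Algebra k A] [Field B] [Algebra k B]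
    (hA : IsFunctionField k A) (hB : IsFunctionField k B) (κ : A →ₐ[k] N) (μ : B →ₐ[k] N)
    (inj : Injective (Algebra.TensorProduct.productMap κ μ))
    (gen : IntermediateField.adjoin k (Set.range κ ∪ Set.range μ) = ⊤)
    (ρA : G₁ →* (A ≃ₐ[k] A)) (ρB : G₂ →* (B ≃ₐ[k] B)) (ρ : G₁ × G₂ →* (N ≃ₐ[k] N))
    (hκ : ∀ a b x, ρ (a, b) (κ x) = κ (ρA a x)) (hμ : ∀ a b y, ρ (a, b) (μ y) = μ (ρB b y))
    (gA : (G₁ →* ℤˣ) → ℕ) (hgA : ∀ χ, IsGenus k (IntermediateField.fixedField (χ.ker.map ρA)) (gA χ))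
    (gB : (G₂ →* ℤˣ) → ℕ) (hgB : ∀ χ, IsGenus k (IntermediateField.fixedField (χ.ker.map ρB)) (gB χ))
    (H : Subgroup (G₁ × G₂)) (φ : F →ₐ[k] N) (hφ : ∀ z : N, z ∈ Set.range φ ↔ ∀ g ∈ H, ρ g z = z) :
    Cls k F (∑ᶠ χ : perp H, gA χ.1.1 * gB χ.1.2) := by
  classical
  have : Fintype G₁ := Fintype.ofFinite _
  have : Fintype G₂ := Fintype.ofFinite _
  have : Fintype (perp H) := Fintype.ofFinite _
  have e : Fin (Fintype.card (perp H)) ≃ perp H := (Fintype.equivFin (perp H)).symm
  rw [finsum_eq_sum_of_fintype, ← Equiv.sum_comp e]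
  -- the fixed fields
  have memE : ∀ (Γ : Subgroup (G₁ × G₂)) (z : N), z ∈ IntermediateField.fixedField (Γ.map ρ) ↔ ∀ g ∈ Γ, ρ g z = z := by
    intro Γ z
    rw [IntermediateField.mem_fixedField_iff]
    constructor
    · exact fun h g hg => h (ρ g) (Subgroup.mem_map_of_mem ρ hg)
    · rintro h _ ⟨g, hg, rfl⟩
      exact h g hg
  have memA : ∀ (Γ : Subgroup G₁) (z : A), z ∈ IntermediateField.fixedField (Γ.map ρA) ↔ ∀ g ∈ Γ, ρA g z = z := by
    intro Γ z
    rw [IntermediateField.mem_fixedField_iff]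
    constructor
    · exact fun h g hg => h (ρA g) (Subgroup.mem_map_of_mem ρA hg)
    · rintro h _ ⟨g, hg, rfl⟩
      exact h g hg
  have memB : ∀ (Γ : Subgroup G₂) (z : B), z ∈ IntermediateField.fixedField (Γ.map ρB) ↔ ∀ g ∈ Γ, ρB g z = z := by
    intro Γ z
    rw [IntermediateField.mem_fixedField_iff]
    constructor
    · exact fun h g hg => h (ρB g) (Subgroup.mem_map_of_mem ρB hg)
    · rintro h _ ⟨g, hg, rfl⟩
      exact h g hg
  refine Cls.dec F N (G₁ × G₂) ρ H φ hφ (Fintype.card (perp H)) (fun i => (e i).1.1.ker.prod (e i).1.2.ker) (fun _ => 1)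
    (fun i => Yc (Fintype.card (perp H)) (e i).1) ?_
    (fun i => IntermediateField.fixedField (((e i).1.1.ker.prod (e i).1.2.ker).map ρ))
    (fun i => (IntermediateField.fixedField (((e i).1.1.ker.prod (e i).1.2.ker).map ρ)).val) ?_
    (fun i => gA (e i).1.1 * gB (e i).1.2) ?_
  · rw [ring_identity hG₁ hG₂ H, ← Equiv.sum_comp e]
  · intro i z
    rw [← memE]
    exact ⟨fun ⟨x, hx⟩ => hx ▸ x.2, fun h => ⟨⟨z, h⟩, rfl⟩⟩
  · intro i
    have : Finite ((e i).1.1.ker.map ρA) :=
      Finite.Set.finite_image ((e i).1.1.ker : Set G₁) ρA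
    have : Finite ((e i).1.2.ker.map ρB) :=
      Finite.Set.finite_image ((e i).1.2.ker : Set G₂) ρB
    obtain ⟨κ', μ', -, -, inj', gen'⟩ := prod_fixed κ μ (ρA.comp (e i).1.1.ker.subtype) (ρB.comp (e i).1.2.ker.subtype)
      (ρ.comp ((e i).1.1.ker.subtype.prodMap (e i).1.2.ker.subtype)) (fun a b x => hκ a b x) (fun a b y => hμ a b y)
      (IntermediateField.fixedField ((e i).1.1.ker.map ρA)).val (fun x => by
        constructor
        · rintro ⟨y, rfl⟩ a
          exact (memA _ _).1 y.2 a a.2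
        · intro h
          exact ⟨⟨x, (memA _ _).2 fun g hg => h ⟨g, hg⟩⟩, rfl⟩)
      (IntermediateField.fixedField ((e i).1.2.ker.map ρB)).val (fun x => by
        constructor
        · rintro ⟨y, rfl⟩ a
          exact (memB _ _).1 y.2 a a.2
        · intro h
          exact ⟨⟨x, (memB _ _).2 fun g hg => h ⟨g, hg⟩⟩, rfl⟩)
      (IntermediateField.fixedField (((e i).1.1.ker.prod (e i).1.2.ker).map ρ)).val (fun x => by
        constructor
        · rintro ⟨y, rfl⟩ g
          exact (memE _ _).1 y.2 (g.1, g.2) ⟨g.1.2, g.2.2⟩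
        · intro h
          exact ⟨⟨x, (memE _ _).2 fun g hg => h (⟨g.1, hg.1⟩, ⟨g.2, hg.2⟩)⟩, rfl⟩)
      inj gen
    exact Cls.prod _ _ _ (VQ.isFunctionField_fixed _ hA) (VQ.isFunctionField_fixed _ hB) _ _ (hgA _) (hgB _) κ' μ' inj' gen'

end Pool.Agent.Helper79.IV
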